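import Mathlib
import Pool.Agent.Lib.MP_7616b3_co.BFFinal
import Pool.Agent.Lib.MP_7616b3_co.MainT
import Pool.Agent.Lib.MP_7616b3_co.Fin1

set_option autoImplicit false

namespace Pool.Agent.Results.MP_7616b3_co.BijectiveCriterion

open Pool.Agent.Graceful

/-- Let `G` be a countable graph with `β₁(G) = ∞`, or with infinitely many isolated vertices, or
with at least two vertices of infinite degree, and let `k ≥ 1`.  Then `G` is
bijectively-`k`-graceful if and only if one of the following holds:
(1) `G` has infinitely many isolated vertices and is `k`-graceful;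
(2) `G` has finitely many isolated vertices, `β₁(G) = ∞`, and for every finite set `W` of vertices
some vertex outside `W` has no neighbour in `W`;
(3) for some finite set `F` of vertices, every vertex outside `F` has exactly one neighbour, this
neighbour lies in `F`, and `|F| ≥ e(F) + k + 1`, where `e(F)` is the number of edges inside `F`. -/
theorem result {V : Type} [Countable V] (G : SimpleGraph V) (k : ℕ) (hk : 1 ≤ k)
    (hG : HasInfiniteMatching G ∨ {v : V | ∀ w, ¬ G.Adj v w}.Infinite ∨
      ∃ a b : V, a ≠ b ∧ {v : V | G.Adj a v}.Infinite ∧ {v : V | G.Adj b v}.Infinite) :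
    BijKGraceful G k ↔
      (({v : V | ∀ w, ¬ G.Adj v w}.Infinite ∧ KGraceful G k) ∨
      ({v : V | ∀ w, ¬ G.Adj v w}.Finite ∧ HasInfiniteMatching G ∧
        ∀ W : Finset V, ∃ v, v ∉ W ∧ ∀ w ∈ W, ¬ G.Adj v w) ∨
      (∃ F : Finset V, (∀ v, v ∉ F → ∃ w ∈ F, ∀ u, G.Adj v u ↔ u = w) ∧
        {e ∈ G.edgeSet | ∀ v ∈ e, v ∈ F}.ncard + k + 1 ≤ F.card)) := by
  classical
  constructor
  · intro h
    by_cases hI : {v : V | ∀ w, ¬ G.Adj v w}.Infinite
    · left
      obtain ⟨f, hf, _⟩ := h
      exact ⟨hI, f, hf⟩
    · right
      by_cases hM : HasInfiniteMatching G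
      · left
        exact ⟨Set.not_infinite.mp hI, hM, fun W => exists_free_of_bij hk hM h W⟩
      · right
        obtain ⟨a, b, hab, ha, hb⟩ := (hG.resolve_left hM).resolve_left hI
        obtain ⟨W, hW⟩ := exists_cover hM
        obtain ⟨F, hF, hc⟩ := BF.core_of_bij G k W hW (Set.not_infinite.mp hI) a b hab ha hb h
        refine ⟨F, hF, ?_⟩
        rw [BF.e2_eq_ncard] at hc
        omega
  · rintro (⟨hI, h⟩ | ⟨hI, hM, hN⟩ | ⟨F, hF, hc⟩)
    · exact BF.bij_of_graceful_isolated G k hI h
    · apply bij_of_edges hk
      intro W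
      obtain ⟨t, ht, hnb⟩ := hN (W ∪ hI.toFinset)
      have htI : ¬ ∀ w, ¬ G.Adj t w := by
        intro h
        apply ht
        rw [Finset.mem_union]
        right
        rw [Set.Finite.mem_toFinset]
        exact h
      push Not at htI
      obtain ⟨v, hv⟩ := htI
      refine ⟨t, v, hv, fun h => ht (Finset.mem_union_left _ h), ?_, ?_⟩
      · intro h
        exact hnb v (Finset.mem_union_left _ h) hv
      · intro w hw
        exact hnb w (Finset.mem_union_left _ hw)
    · have hcov : ∀ u v, G.Adj u v → u ∈ F ∨ v ∈ F := by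
        intro u v ha
        by_cases hu : u ∈ F
        · exact Or.inl hu
        · obtain ⟨w, hwF, hw⟩ := hF u hu
          right
          rw [(hw v).mp ha]
          exact hwF
      rcases hG with hM | hI | ⟨a, b, hab, ha, hb⟩
      · exfalso
        obtain ⟨u, v, ha, hu, hv⟩ := exists_late_edge hM F
        rcases hcov u v ha with h | h
        · exact hu h
        · exact hv h
      · exfalso
        apply hI
        apply F.finite_toSet.subset
        intro v hv
        rw [Finset.mem_coe]
        by_contra hvF
        obtain ⟨w, _, hw⟩ := hF v hvF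
        exact hv w ((hw w).mpr rfl)
      · apply BF.bij_of_core G k hk F hF ?_ a b hab ha hb
        rw [BF.e2_eq_ncard]
        omega

end Pool.Agent.Results.MP_7616b3_co.BijectiveCriterion
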