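import Mathlib
import Pool.Agent.Lib.MP_7616b3_co.D2Main
import Pool.Agent.Lib.MP_7616b3_co.NonGraceful

set_option autoImplicit false

namespace Pool.Agent.Results.MP_7616b3_co.DegreeOneOrTwo

open Pool.Agent.Graceful

/-- Let `G` be a countable graph with `β₁(G) < ∞` in which infinitely many vertices have degree one
or two. Then, for every `k ≥ 1`, `G` is `k`-graceful if and only if it has only finitely many
isolated vertices or infinitely many vertices of degree at least two. -/
theorem result {V : Type} [Countable V] (G : SimpleGraph V) (hM : ¬ HasInfiniteMatching G)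
    (hG : {v : V | ∃ a b, ∀ w, G.Adj v w ↔ (w = a ∨ w = b)}.Infinite)
    (k : ℕ) (hk : 1 ≤ k) :
    KGraceful G k ↔ ({v : V | ∀ w, ¬ G.Adj v w}.Finite ∨
      {v : V | ∃ a b, a ≠ b ∧ G.Adj v a ∧ G.Adj v b}.Infinite) := by
  classical
  obtain ⟨W, hW⟩ := exists_cover hM
  constructor
  · intro h
    by_contra hcon
    push Not at hcon
    exact not_graceful W hW hcon.1 hcon.2 h
  · intro h
    by_cases hLV : {v : V | ∃! w, G.Adj v w}.Infinite
    · -- infinitely many leaves
      have hex : ∃ c ∈ W, {v | v ∉ W ∧ ∀ w, G.Adj v w ↔ w = c}.Infinite := by
        by_contra hcon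
        push Not at hcon
        have h1 : ({v : V | ∃! w, G.Adj v w} \ (W : Set V)).Infinite :=
          hLV.sdiff W.finite_toSet
        apply h1
        have hsub : {v : V | ∃! w, G.Adj v w} \ (W : Set V) ⊆
            ⋃ c ∈ (W : Set V), {v | v ∉ W ∧ ∀ w, G.Adj v w ↔ w = c} := by
          rintro v ⟨⟨w, hw, huniq⟩, hvW⟩
          simp only [Set.mem_iUnion]
          have hvW' : v ∉ W := hvW
          refine ⟨w, (hW v w hw).resolve_left hvW', hvW', fun w' => ⟨huniq w', ?_⟩⟩
          rintro rfl
          exact hw
        apply Set.Finite.subset _ hsub
        apply Set.Finite.biUnion W.finite_toSet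
        intro c hc
        exact hcon c hc
      obtain ⟨c, hcW, hc⟩ := hex
      obtain ⟨z0, hz0W, hz0⟩ := hc.nonempty
      have hz0c : z0 ≠ c := fun h => hz0W (h ▸ hcW)
      by_cases hI : {v : V | ∀ w, ¬ G.Adj v w}.Finite
      · apply graceful_leafcase hk ((W ∪ hI.toFinset) \ {c, z0}) c z0 _ _ hz0c hz0
        · intro u v huv
          rcases hW u v huv with h' | h'
          · left
            by_cases huc : u = c
            · exact Or.inr huc
            · left
              rw [Finset.mem_sdiff]
              refine ⟨Finset.mem_union_left _ h', ?_⟩
              simp only [Finset.mem_insert, Finset.mem_singleton, not_or]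
              exact ⟨huc, fun h => hz0W (h ▸ h')⟩
          · right
            by_cases hvc : v = c
            · exact Or.inr hvc
            · left
              rw [Finset.mem_sdiff]
              refine ⟨Finset.mem_union_left _ h', ?_⟩
              simp only [Finset.mem_insert, Finset.mem_singleton, not_or]
              exact ⟨hvc, fun h => hz0W (h ▸ h')⟩
        · exact hc.mono (fun v hv => hv.2)
        · left
          intro z hz hzc hzz
          by_contra hcon
          push Not at hcon
          apply hz
          rw [Finset.mem_sdiff]
          refine ⟨Finset.mem_union_right _ (hI.mem_toFinset.mpr hcon), ?_⟩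
          simp only [Finset.mem_insert, Finset.mem_singleton, not_or]
          exact ⟨hzc, hzz⟩
        · simp
        · simp
      · apply graceful_leafcase hk (W \ {c, z0}) c z0 _ _ hz0c hz0
        · intro u v huv
          rcases hW u v huv with h' | h'
          · left
            by_cases huc : u = c
            · exact Or.inr huc
            · left
              rw [Finset.mem_sdiff]
              refine ⟨h', ?_⟩
              simp only [Finset.mem_insert, Finset.mem_singleton, not_or]
              exact ⟨huc, fun h => hz0W (h ▸ h')⟩
          · right
            by_cases hvc : v = c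
            · exact Or.inr hvc
            · left
              rw [Finset.mem_sdiff]
              refine ⟨h', ?_⟩
              simp only [Finset.mem_insert, Finset.mem_singleton, not_or]
              exact ⟨hvc, fun h => hz0W (h ▸ h')⟩
        · exact hc.mono (fun v hv => hv.2)
        · right
          exact h.resolve_left hI
        · simp
        · simp
    · -- infinitely many vertices of degree two
      apply graceful_d2 hk W hW
      have hLf : {v : V | ∃! w, G.Adj v w}.Finite := Set.not_infinite.mp hLV
      apply (hG.sdiff hLf).mono
      rintro v ⟨⟨a, b, hv⟩, hv'⟩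
      refine ⟨a, b, ?_, hv⟩
      rintro rfl
      apply hv'
      refine ⟨a, (hv a).mpr (Or.inl rfl), fun w hw => ?_⟩
      rcases (hv w).mp hw with h | h <;> exact h

end Pool.Agent.Results.MP_7616b3_co.DegreeOneOrTwo
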