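import Mathlib
import Pool.Agent.Lib.MP_7616b3_co.MainT

set_option autoImplicit false

namespace Pool.Agent.Results.MP_7616b3_co.GracefulInfiniteMatching

open Pool.Agent.Graceful

/-- Let `G` be a countable graph with `β₁(G) = ∞` such that non-adjacency is transitive on the late
dominating vertices of `G`. Then `G` is `k`-graceful for every `k ≥ 1`. -/
theorem result {V : Type} [Countable V] (G : SimpleGraph V) (hM : HasInfiniteMatching G)
    (hG : ∀ x y z : V, LateDominating G x → LateDominating G y → LateDominating G z →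
      ¬ G.Adj x y → ¬ G.Adj y z → ¬ G.Adj x z)
    (k : ℕ) (hk : 1 ≤ k) : KGraceful G k := by
  have hT : ∀ x y z, HPair G x y → HPair G y z → x = z ∨ HPair G x z := by
    intro x y z hxy hyz
    by_cases hxz : x = z
    · exact Or.inl hxz
    · exact Or.inr ⟨hxz, hG x y z hxy.2.2.1 hxy.2.2.2 hyz.2.2.2 hxy.2.1 hyz.2.1,
        hxy.2.2.1, hyz.2.2.2⟩
  obtain ⟨F, hF, _⟩ := exists_gracefulT hk hM hT
  exact ⟨F, hF⟩

end Pool.Agent.Results.MP_7616b3_co.GracefulInfiniteMatching
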