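import Mathlib
import Pool.Agent.Lib.MP_7616b3_co.SplitPrime

set_option autoImplicit false

namespace Pool.Agent.Results.MP_7616b3_co.NotGracefulPrimeSplit

open Pool.Agent.Graceful

/-- Let `p` be a prime and let `G` be a countably infinite graph that arises from the join
`K_p ∨ (edgeless graph)` by adding and deleting altogether at most `m` edges, where `m = 0` and
`p ≥ 3`, or `p ≥ 4 m + 7`. Then `G` is not `k`-graceful for any `k ≥ 1`. -/
theorem result {V : Type} [Countable V] [Infinite V] (G : SimpleGraph V) (W : Finset V) (m k : ℕ)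
    (hk : 1 ≤ k) (hp : W.card.Prime) (hm : (m = 0 ∧ 3 ≤ W.card) ∨ 4 * m + 7 ≤ W.card)
    (hG : (symmDiff G.edgeSet (splitGraph W).edgeSet).encard ≤ m) : ¬ KGraceful G k := by
  classical
  rcases hm with ⟨rfl, h3⟩ | hm
  · have h1 : symmDiff G.edgeSet (splitGraph W).edgeSet = ∅ := by
      rw [← Set.encard_eq_zero]
      exact le_antisymm (by exact_mod_cast hG) (by simp)
    have h2 : G.edgeSet = (splitGraph W).edgeSet := symmDiff_eq_bot.mp h1
    have h3' : G = splitGraph W := SimpleGraph.edgeSet_injective h2
    rw [h3']
    exact Split.split_prime hp h3 hk rfl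
  · have hfin : (symmDiff G.edgeSet (splitGraph W).edgeSet).Finite :=
      Set.finite_of_encard_le_coe hG
    refine Split.robust G W hfin.toFinset W.card m k hp hm hk rfl ?_ ?_
    · rw [hfin.encard_eq_coe_toFinset_card] at hG
      exact_mod_cast hG
    · intro e he
      rw [Set.Finite.mem_toFinset, Set.mem_symmDiff] at he
      tauto

end Pool.Agent.Results.MP_7616b3_co.NotGracefulPrimeSplit
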